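import Pool.Agent.Y150.CD.Stm

/-!
# Kummer cocycles
-/

set_option autoImplicit false

namespace Pool.Agent.Y338.CD

open Pool.Agent.Y150.CD Topology Filter

/-! ## Numbers modulo powers of two in the `2`-adic integers -/

lemma dvd_nat {n k l : ℕ} : (2 : ℤ_[2]) ^ n ∣ (k : ℤ_[2]) - l ↔ k ≡ l [MOD 2 ^ n] := by
  have h := PadicInt.pow_p_dvd_int_iff (p := 2) n ((k : ℤ) - l)
  push_cast at h
  rw [h, Nat.ModEq.comm, Nat.modEq_iff_dvd]
  push_cast
  rfl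

lemma eq_of_dvd {x y : ℤ_[2]} (h : ∀ n : ℕ, (2 : ℤ_[2]) ^ n ∣ x - y) : x = y := by
  refine PadicInt.ext_of_toZModPow.mp fun n => ?_
  rw [← sub_eq_zero, ← map_sub, ← RingHom.mem_ker, PadicInt.ker_toZModPow,
    Ideal.mem_span_singleton]
  have := h n
  exact_mod_cast this

lemma exists_lim (s : ℕ → ℕ) (hs : ∀ n, s (n + 1) ≡ s n [MOD 2 ^ n]) :
    ∃ t : ℤ_[2], ∀ n, (2 : ℤ_[2]) ^ n ∣ t - s n := by
  have hmem : ∀ (n : ℕ) (x : ℤ_[2]),
      x ∈ ((IsLocalRing.maximalIdeal ℤ_[2]) ^ n • (⊤ : Submodule ℤ_[2] ℤ_[2])) ↔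
        (2 : ℤ_[2]) ^ n ∣ x := by
    intro n x
    rw [PadicInt.maximalIdeal_eq_span_p, Ideal.span_singleton_pow]
    simp [Ideal.mem_span_singleton]
  have hle : ∀ {m n : ℕ}, m ≤ n → s n ≡ s m [MOD 2 ^ m] := by
    intro m n hmn
    induction n, hmn using Nat.le_induction with
    | base => rfl
    | succ n hn ih =>
      exact ((hs n).of_dvd (pow_dvd_pow 2 hn)).trans ih
  obtain ⟨L, hL⟩ := IsPrecomplete.prec (I := IsLocalRing.maximalIdeal ℤ_[2]) (M := ℤ_[2])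
    inferInstance (f := fun n => (s n : ℤ_[2])) (by
      intro m n hmn
      rw [SModEq.sub_mem, hmem]
      exact dvd_nat.mpr (hle hmn).symm)
  refine ⟨L, fun n => ?_⟩
  have h1 := (hL n).symm
  rw [SModEq.sub_mem, hmem] at h1
  exact h1

lemma exists_approx (x : ℤ_[2]) (n : ℕ) : ∃ k : ℕ, (2 : ℤ_[2]) ^ n ∣ x - k := by
  refine ⟨x.appr n, ?_⟩
  have := PadicInt.appr_spec n x
  rw [Ideal.mem_span_singleton] at this
  exact_mod_cast this

/-! ## The Galois group -/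

lemma ev_eq (g : G) (x : Qb) : ∀ᶠ g' in 𝓝 g, g' x = g x := by
  have hfin : FiniteDimensional ℚ (IntermediateField.adjoin ℚ {x}) :=
    IntermediateField.adjoin.finiteDimensional
      ((AlgebraicClosure.isAlgebraic ℚ).isAlgebraic x).isIntegral
  have hopen := (IntermediateField.adjoin ℚ {x}).fixingSubgroup_isOpen
  have hc : Continuous fun g' : G => g⁻¹ * g' := continuous_const.mul continuous_id
  have hmem : g ∈ (fun g' : G => g⁻¹ * g') ⁻¹'
      ((IntermediateField.adjoin ℚ {x}).fixingSubgroup : Set G) := by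
    simp [one_mem]
  filter_upwards [(hopen.preimage hc).mem_nhds hmem] with g' hg'
  have h1 : (g⁻¹ * g') x = x :=
    (IntermediateField.mem_fixingSubgroup_iff _ _).mp hg' x
      (IntermediateField.mem_adjoin_simple_self ℚ x)
  have h2 : g' x = g ((g⁻¹ * g') x) := by
    rw [← AlgEquiv.mul_apply, mul_inv_cancel_left]
  rw [h2, h1]

/-! ## The roots -/

/-- a square root -/
noncomputable def sq (x : Qb) : Qb := (IsAlgClosed.exists_pow_nat_eq x (n := 2) (by norm_num)).choose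

lemma sq_spec (x : Qb) : sq x ^ 2 = x :=
  (IsAlgClosed.exists_pow_nat_eq x (n := 2) (by norm_num)).choose_spec

/-- the roots of `c` -/
noncomputable def rt (c : ℕ) : ℕ → Qb
  | 0 => c
  | n + 1 => sq (rt c n)

lemma rt_pow (c n : ℕ) : rt c n ^ 2 ^ n = c := by
  induction n with
  | zero => simp [rt]
  | succ n ih =>
    rw [pow_succ, mul_comm, pow_mul, rt, sq_spec, ih]

lemma rt_ne {c : ℕ} (hc : c ≠ 0) (n : ℕ) : rt c n ≠ 0 := by
  intro h
  have h1 := rt_pow c n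
  rw [h, zero_pow (by positivity)] at h1
  exact hc (by exact_mod_cast h1.symm)

lemma exists_k (Z : Cyc) {c : ℕ} (hc : c ≠ 0) (g : G) (n : ℕ) :
    ∃ k, g (rt c n) = Z.z n ^ k * rt c n := by
  have h0 : g (rt c n) / rt c n ≠ 0 ∨ True := Or.inr trivial
  have h1 : (g (rt c n) / rt c n) ^ 2 ^ n = 1 := by
    rw [div_pow, ← map_pow, rt_pow, map_natCast, div_self]
    exact_mod_cast hc
  obtain ⟨k, -, hk⟩ := (Z.prim n).eq_pow_of_pow_eq_one h1
  refine ⟨k, ?_⟩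
  rw [hk, div_mul_cancel₀ _ (rt_ne hc n)]

/-- the exponent -/
noncomputable def kk (Z : Cyc) {c : ℕ} (hc : c ≠ 0) (g : G) (n : ℕ) : ℕ := (exists_k Z hc g n).choose

lemma kk_spec (Z : Cyc) {c : ℕ} (hc : c ≠ 0) (g : G) (n : ℕ) :
    g (rt c n) = Z.z n ^ kk Z hc g n * rt c n := (exists_k Z hc g n).choose_spec

lemma z_pow (Z : Cyc) {n k l : ℕ} : Z.z n ^ k = Z.z n ^ l ↔ k ≡ l [MOD 2 ^ n] := by
  have hne : Z.z n ≠ 0 := (Z.prim n).ne_zero (by positivity)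
  have h1 : (Units.mk0 (Z.z n) hne) ^ k = (Units.mk0 (Z.z n) hne) ^ l ↔
      k ≡ l [MOD orderOf (Units.mk0 (Z.z n) hne)] := pow_eq_pow_iff_modEq
  have h2 : orderOf (Units.mk0 (Z.z n) hne) = 2 ^ n := by
    rw [← orderOf_units, Units.val_mk0]
    exact (Z.prim n).eq_orderOf.symm
  rw [h2] at h1
  rw [← h1, Units.ext_iff]
  simp

lemma kk_uniq (Z : Cyc) {c : ℕ} (hc : c ≠ 0) {g : G} {n k : ℕ} (h : g (rt c n) = Z.z n ^ k * rt c n) :
    k ≡ kk Z hc g n [MOD 2 ^ n] := by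
  rw [kk_spec Z hc g n] at h
  exact (z_pow Z).mp (mul_right_cancel₀ (rt_ne hc n) h).symm

lemma kk_succ (Z : Cyc) {c : ℕ} (hc : c ≠ 0) (g : G) (n : ℕ) :
    kk Z hc g (n + 1) ≡ kk Z hc g n [MOD 2 ^ n] := by
  apply kk_uniq Z hc
  have h1 := kk_spec Z hc g (n + 1)
  have h2 : rt c n = rt c (n + 1) ^ 2 := by rw [rt, sq_spec]
  rw [h2, map_pow, h1, mul_pow, ← Z.comp n]
  ring

/-- the Kummer cocycle -/
noncomputable def tt (Z : Cyc) {c : ℕ} (hc : c ≠ 0) (g : G) : ℤ_[2] :=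
  (exists_lim (kk Z hc g) (kk_succ Z hc g)).choose

lemma tt_spec (Z : Cyc) {c : ℕ} (hc : c ≠ 0) (g : G) (n : ℕ) :
    (2 : ℤ_[2]) ^ n ∣ tt Z hc g - kk Z hc g n :=
  (exists_lim (kk Z hc g) (kk_succ Z hc g)).choose_spec n

lemma tt_act (Z : Cyc) {c : ℕ} (hc : c ≠ 0) (g : G) (n k : ℕ)
    (h : (2 : ℤ_[2]) ^ n ∣ tt Z hc g - k) : g (rt c n) = Z.z n ^ k * rt c n := by
  have h1 : (2 : ℤ_[2]) ^ n ∣ (k : ℤ_[2]) - kk Z hc g n := by
    have := dvd_sub (tt_spec Z hc g n) h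
    have e : (k : ℤ_[2]) - kk Z hc g n = tt Z hc g - kk Z hc g n - (tt Z hc g - k) := by ring
    rw [e]
    exact this
  rw [kk_spec Z hc g n, (z_pow Z).mpr (dvd_nat.mp h1)]

lemma tt_of (Z : Cyc) {c : ℕ} (hc : c ≠ 0) {g : G} {n k : ℕ}
    (h : g (rt c n) = Z.z n ^ k * rt c n) : (2 : ℤ_[2]) ^ n ∣ tt Z hc g - k := by
  have h1 := dvd_nat.mpr (kk_uniq Z hc h)
  have e : tt Z hc g - (k : ℤ_[2]) = tt Z hc g - kk Z hc g n - (k - kk Z hc g n) := by ring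
  rw [e]
  exact dvd_sub (tt_spec Z hc g n) h1

lemma tt_co (hchi : S_chi) (Z : Cyc) {c : ℕ} (hc : c ≠ 0) (g h : G) :
    tt Z hc (g * h) = tt Z hc g + (chi g : ℤ_[2]) * tt Z hc h := by
  apply eq_of_dvd
  intro n
  obtain ⟨m, hm⟩ := exists_approx (chi g : ℤ_[2]) n
  have h1 : (g * h) (rt c n) = Z.z n ^ (m * kk Z hc h n + kk Z hc g n) * rt c n := by
    rw [AlgEquiv.mul_apply, kk_spec Z hc h n, map_mul, map_pow, hchi.2 Z g n m hm,
      kk_spec Z hc g n, pow_add, pow_mul]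
    ring
  have h2 := tt_of Z hc h1
  have e : tt Z hc (g * h) - (tt Z hc g + (chi g : ℤ_[2]) * tt Z hc h) =
      (tt Z hc (g * h) - ((m * kk Z hc h n + kk Z hc g n : ℕ) : ℤ_[2])) -
        (tt Z hc g - kk Z hc g n) - ((chi g : ℤ_[2]) * (tt Z hc h - kk Z hc h n) +
          ((chi g : ℤ_[2]) - m) * kk Z hc h n) := by
    push_cast
    ring
  rw [e]
  exact dvd_sub (dvd_sub h2 (tt_spec Z hc g n))
    (dvd_add (Dvd.dvd.mul_left (tt_spec Z hc h n) _) (Dvd.dvd.mul_right hm _))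

lemma tt_cont (Z : Cyc) {c : ℕ} (hc : c ≠ 0) : Continuous (tt Z hc) := by
  rw [continuous_iff_continuousAt]
  intro g
  rw [ContinuousAt, Metric.tendsto_nhds]
  intro ε hε
  obtain ⟨n, hn⟩ := PadicInt.exists_pow_neg_lt 2 hε
  filter_upwards [ev_eq g (rt c n)] with g' hg'
  refine lt_of_le_of_lt ?_ hn
  rw [dist_eq_norm, PadicInt.norm_le_pow_iff_mem_span_pow, Ideal.mem_span_singleton]
  have h1 : g' (rt c n) = Z.z n ^ kk Z hc g n * rt c n := by rw [hg', kk_spec]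
  have h2 := dvd_sub (tt_of Z hc h1) (tt_spec Z hc g n)
  have e : tt Z hc g' - tt Z hc g =
      tt Z hc g' - kk Z hc g n - (tt Z hc g - kk Z hc g n) := by ring
  rw [e]
  exact_mod_cast h2

theorem kum : S_chi → S_kum := by
  intro hchi Z c hc
  exact ⟨⟨rt c, tt Z hc, rfl, fun n => sq_spec _, tt_cont Z hc, tt_co hchi Z hc,
    fun g n k h => tt_act Z hc g n k h⟩⟩

end Pool.Agent.Y338.CD
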